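import Pool.Agent.R235.FS.A1
import Pool.Agent.R235.FS.A2
import Pool.Agent.R235.FS.A3
import Pool.Agent.R235.FS.A4
import Pool.Agent.R235.FS.LOC
import Pool.Agent.R235.FS.IB
import Pool.Agent.R235.FS.I1
import Pool.Agent.R235.FS.I2
import Pool.Agent.R235.FS.CJ
import Pool.Agent.R235.FS.WT
import Pool.Agent.R235.FS.CV
import Pool.Agent.R235.FS.CW
import Pool.Agent.R235.FS.U1
import Pool.Agent.R235.FS.UC
import Pool.Agent.R235.FS.LAP
import Pool.Agent.R235.FS.MUC
import Pool.Agent.R235.FS.Main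

/-!
# MP_f97e06_gt: every degenerate Laplace eigenvalue has multiplicity at least eight

The definitions are in `Pool/Agent/R235/FS/Stm.lean`.
-/

set_option autoImplicit false

open scoped ContDiff Manifold

namespace Pool.Agent.Results.MP_f97e06_gt.MultiplicityAtLeastEight

open Pool.Agent.R235.FS

/-- Let `M` be a closed connected smooth manifold of any dimension with a smooth Riemannian metric
`g`, and let `lam` be a degenerate eigenvalue of its Laplace-Beltrami operator. Then the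
multiplicity of `lam` is at least eight; in particular it is not seven. -/
theorem result : ∀ (n : ℕ) (M : Type) [TopologicalSpace M] [ChartedSpace (V n) M]
    [IsManifold 𝓘(ℝ, V n) ∞ M] [CompactSpace M] [T2Space M] [ConnectedSpace M] (g : RMet n M)
    (lam : ℝ), Degenerate g lam →
    8 ≤ Module.rank ℝ (Eig g lam) ∧ Module.rank ℝ (Eig g lam) ≠ 7 := by
  have hUC : S_UC := PUC.t_UC (PU1.t_U1 (PCW.t_CW
    (PCV.t_CV (PI1.t_I1 PIB.t_IB) (PI2.t_I2 PIB.t_IB) PWT.t_WT) PCJ.t_CJ))
  have hLOC : S_LOC := PLOC.t_LOC PA1.t_A1 PA2.t_A2 PA2.t_A2b PA3.t_A3 t_A4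
  have hmain : S_MAIN := PMAIN.t_MAIN hLOC (PMUC.t_MUC hUC PLAP.t_LAP) PLAP.t_LAP
  intro n M _ _ _ _ _ _ g lam h
  have h8 := hmain n M g lam h
  refine ⟨h8, fun h7 => ?_⟩
  rw [h7] at h8
  exact absurd h8 (by norm_num)

end Pool.Agent.Results.MP_f97e06_gt.MultiplicityAtLeastEight
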